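import Mathlib

set_option autoImplicit false

namespace Pool.Agent.W94.Gold

/-- number of integers in `(m/2, m]` prime to `210` -/
def cnt (m : ℕ) : ℕ := ((Finset.Ioc (m / 2) m).filter (fun j => Nat.Coprime j 210)).card

/-- `0` or `1` according to coprimality with `210` -/
def ind (j : ℕ) : ℕ := if Nat.Coprime j 210 then 1 else 0

theorem cnt_eq_sum (m : ℕ) : cnt m = ∑ j ∈ Finset.Ioc (m / 2) m, ind j := by
  unfold cnt ind
  rw [Finset.card_filter]

theorem ind_add (j : ℕ) : ind (j + 210) = ind j := by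
  unfold ind
  simp only [Nat.coprime_add_self_left]

theorem sum_block (k : ℕ) : ∑ j ∈ Finset.Ioc k (k + 210), ind j = 48 := by
  induction k with
  | zero => decide +kernel
  | succ k ih =>
    have h1 : ∑ j ∈ Finset.Ioc k (k + 1 + 210), ind j
        = ∑ j ∈ Finset.Ioc k (k + 210), ind j + ind (k + 1 + 210) := by
      rw [show k + 1 + 210 = (k + 210) + 1 by ring, Finset.sum_Ioc_succ_top (by omega)]
    have h2 : ∑ j ∈ Finset.Ioc k (k + 1 + 210), ind j
        = ind (k + 1) + ∑ j ∈ Finset.Ioc (k + 1) (k + 1 + 210), ind j := by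
      rw [← Finset.sum_Ioc_consecutive _ (show k ≤ k + 1 by omega) (show k + 1 ≤ k + 1 + 210 by omega)]
      simp
    rw [ind_add] at h1
    omega

theorem cnt_add (m : ℕ) : cnt (m + 420) = cnt m + 48 := by
  rw [cnt_eq_sum, cnt_eq_sum]
  have h0 : (m + 420) / 2 = m / 2 + 210 := by omega
  rw [h0]
  have h1 : ∑ j ∈ Finset.Ioc (m / 2) (m + 420), ind j
      = ∑ j ∈ Finset.Ioc (m / 2) m, ind j + (48 + 48) := by
    rw [← Finset.sum_Ioc_consecutive _ (show m / 2 ≤ m by omega) (show m ≤ m + 420 by omega),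
      ← Finset.sum_Ioc_consecutive _ (show m ≤ m + 210 by omega) (show m + 210 ≤ m + 420 by omega),
      sum_block m, show m + 420 = (m + 210) + 210 by ring, sum_block (m + 210)]
  have h2 : ∑ j ∈ Finset.Ioc (m / 2) (m + 420), ind j
      = 48 + ∑ j ∈ Finset.Ioc (m / 2 + 210) (m + 420), ind j := by
    rw [← Finset.sum_Ioc_consecutive _ (show m / 2 ≤ m / 2 + 210 by omega)
      (show m / 2 + 210 ≤ m + 420 by omega), sum_block]
  omega

/-- the thirty exceptional lengths -/
def excl : List ℕ := [13, 14, 15, 17, 18, 19, 20, 21, 22, 23, 24, 25, 29, 30, 31, 32, 33, 37, 43, 44,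
  45, 47, 53, 54, 55, 61, 71, 73, 79, 199]

theorem base : ∀ m ∈ Finset.range 840, 4 ≤ m → m ∉ excl → 8 * cnt m ≤ m := by
  decide +kernel

theorem cnt_le (m : ℕ) (h4 : 4 ≤ m) (hm : m ∉ excl) : 8 * cnt m ≤ m := by
  induction m using Nat.strong_induction_on with
  | _ m ih =>
    by_cases h : m < 840
    · exact base m (Finset.mem_range.mpr h) h4 hm
    · obtain ⟨k, rfl⟩ : ∃ k, m = k + 420 := ⟨m - 420, by omega⟩
      have hk : k ∉ excl := by
        intro hk
        have : k ≤ 199 := by
          unfold excl at hk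
          simp only [List.mem_cons, List.not_mem_nil, or_false] at hk
          omega
        omega
      have := ih k (by omega) (by omega) hk
      rw [cnt_add]
      omega

end Pool.Agent.W94.Gold
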