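import Pool.Agent.W982.TA.Fast

set_option autoImplicit false

namespace Pool.Agent.W982.TA

theorem w1_dpF (a1 a2 b1 b2 c1 c2 : ℕ) : dpF a1 a2 b1 b2 c1 c2 = dp a1 a2 b1 b2 c1 c2 := rfl
theorem w1_dnF (a1 a2 b1 b2 c1 c2 : ℕ) : dnF a1 a2 b1 b2 c1 c2 = dn a1 a2 b1 b2 c1 c2 := rfl

theorem w1_self1 (a1 a2 b1 b2 : ℕ) : dp a1 a2 b1 b2 a1 a2 = dn a1 a2 b1 b2 a1 a2 := by
  unfold dp dn; ring

theorem w1_self2 (a1 a2 b1 b2 : ℕ) : dp a1 a2 b1 b2 b1 b2 = dn a1 a2 b1 b2 b1 b2 := by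
  unfold dp dn; ring

theorem w1_side {a1 a2 b1 b2 c1 c2 d1 d2 : ℕ} (h : sideF a1 a2 b1 b2 c1 c2 d1 d2 = true) :
    (dp a1 a2 b1 b2 c1 c2 < dn a1 a2 b1 b2 c1 c2 ∧ dp a1 a2 b1 b2 d1 d2 < dn a1 a2 b1 b2 d1 d2) ∨
    (dn a1 a2 b1 b2 c1 c2 < dp a1 a2 b1 b2 c1 c2 ∧
      dn a1 a2 b1 b2 d1 d2 < dp a1 a2 b1 b2 d1 d2) := by
  unfold sideF at h
  simp only [w1_dpF, w1_dnF] at h
  cases h1 : Nat.ble (Nat.succ (dp a1 a2 b1 b2 c1 c2)) (dn a1 a2 b1 b2 c1 c2) with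
  | true =>
    rw [h1, cond_true] at h
    left
    exact ⟨Nat.le_of_ble_eq_true h1, Nat.le_of_ble_eq_true h⟩
  | false =>
    rw [h1, cond_false] at h
    cases h2 : Nat.ble (Nat.succ (dn a1 a2 b1 b2 c1 c2)) (dp a1 a2 b1 b2 c1 c2) with
    | true =>
      rw [h2, cond_true] at h
      right
      exact ⟨Nat.le_of_ble_eq_true h2, Nat.le_of_ble_eq_true h⟩
    | false =>
      rw [h2, cond_false] at h
      exact absurd h Bool.false_ne_true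

theorem w1_opp {a1 a2 b1 b2 c1 c2 d1 d2 : ℕ} (h : sideF a1 a2 b1 b2 c1 c2 d1 d2 = true) :
    oppN a1 a2 b1 b2 c1 c2 d1 d2 = false := by
  have h' := w1_side h
  cases ho : oppN a1 a2 b1 b2 c1 c2 d1 d2 with
  | false => rfl
  | true =>
    exfalso
    unfold oppN at ho
    rw [Bool.or_eq_true, Bool.and_eq_true, Bool.and_eq_true, Nat.blt_eq, Nat.blt_eq, Nat.blt_eq,
      Nat.blt_eq] at ho
    omega

theorem w1_tri_ne (L : List ℕ) {a1 a2 b1 b2 c1 c2 d1 d2 : ℕ} (h : ¬ (a1 = c1 ∧ a2 = c2)) :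
    triN L a1 a2 b1 b2 c1 c2 d1 d2 = true := by
  unfold triN
  have : (Nat.beq a1 c1 && Nat.beq a2 c2) = false := by
    cases hb : (Nat.beq a1 c1 && Nat.beq a2 c2) with
    | false => rfl
    | true =>
      rw [Bool.and_eq_true, Nat.beq_eq, Nat.beq_eq] at hb
      exact absurd hb h
  rw [this, Bool.false_and, Bool.false_and]
  rfl

theorem w1_ac {a1 a2 b1 b2 c1 c2 d1 d2 : ℕ} (h : sideF a1 a2 b1 b2 c1 c2 d1 d2 = true) :
    ¬ (a1 = c1 ∧ a2 = c2) := by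
  rintro ⟨rfl, rfl⟩
  have h' := w1_side h
  have := w1_self1 a1 a2 b1 b2
  omega

theorem w1_bc {a1 a2 b1 b2 c1 c2 d1 d2 : ℕ} (h : sideF a1 a2 b1 b2 c1 c2 d1 d2 = true) :
    ¬ (b1 = c1 ∧ b2 = c2) := by
  rintro ⟨rfl, rfl⟩
  have h' := w1_side h
  have := w1_self2 a1 a2 b1 b2
  omega

theorem w1_ad {a1 a2 b1 b2 c1 c2 d1 d2 : ℕ} (h : sideF a1 a2 b1 b2 c1 c2 d1 d2 = true) :
    ¬ (a1 = d1 ∧ a2 = d2) := by
  rintro ⟨rfl, rfl⟩
  have h' := w1_side h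
  have := w1_self1 a1 a2 b1 b2
  omega

theorem w1_bd {a1 a2 b1 b2 c1 c2 d1 d2 : ℕ} (h : sideF a1 a2 b1 b2 c1 c2 d1 d2 = true) :
    ¬ (b1 = d1 ∧ b2 = d2) := by
  rintro ⟨rfl, rfl⟩
  have h' := w1_side h
  have := w1_self2 a1 a2 b1 b2
  omega

theorem w1_mid (k : ℕ) : k % 4096 = midC (px k) (py k) (qx k) (qy k) := by
  have e1 : ex k = k % 64 := rfl
  have e2 : ey k = k / 64 % 64 := rfl
  have e3 : ea k = k / 4096 % 16 := rfl
  have e4 : eb k = k / 65536 % 16 := rfl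
  unfold midC px py qx qy
  omega

theorem w1_midc (b1 b2 c1 c2 : ℕ) : midC b1 b2 c1 c2 = midC c1 c2 b1 b2 := by
  unfold midC
  rw [Nat.add_comm b1 c1, Nat.add_comm b2 c2]

theorem w1_has (L : List ℕ) (b1 b2 c1 c2 : ℕ) (h : hasN L b1 b2 c1 c2 = true) :
    hasF L b1 b2 c1 c2 = true := by
  unfold hasN at h
  unfold hasF
  rw [List.any_eq_true] at h ⊢
  obtain ⟨k, hk, hh⟩ := h
  refine ⟨k, hk, ?_⟩
  have hm : Nat.beq (Nat.mod k 4096) (midC b1 b2 c1 c2) = true := by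
    rw [Nat.beq_eq]
    rw [Bool.or_eq_true, Bool.and_eq_true, Bool.and_eq_true, Bool.and_eq_true, Bool.and_eq_true,
      Bool.and_eq_true, Bool.and_eq_true] at hh
    simp only [Nat.beq_eq] at hh
    rcases hh with ⟨⟨⟨h1, h2⟩, h3⟩, h4⟩ | ⟨⟨⟨h1, h2⟩, h3⟩, h4⟩
    · rw [← h1, ← h2, ← h3, ← h4]
      exact w1_mid k
    · rw [← h1, ← h2, ← h3, ← h4, w1_midc]
      exact w1_mid k
  rw [hm, cond_true]
  exact hh

theorem w1_triF (L : List ℕ) {a1 a2 b1 b2 c1 c2 d1 d2 : ℕ}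
    (h : triF L a1 a2 b1 b2 c1 c2 d1 d2 = true) : triN L a1 a2 b1 b2 c1 c2 d1 d2 = true := by
  by_cases hac : a1 = c1 ∧ a2 = c2
  · unfold triF at h
    have h1 : Nat.beq a1 c1 = true := by rw [Nat.beq_eq]; exact hac.1
    have h2 : Nat.beq a2 c2 = true := by rw [Nat.beq_eq]; exact hac.2
    rw [h1, h2, cond_true, cond_true] at h
    unfold triN
    rw [h1, h2]
    have e1 : Nat.beq (dpF a1 a2 b1 b2 d1 d2) (Nat.add (dnF a1 a2 b1 b2 d1 d2) 4) =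
      Nat.beq (dp a1 a2 b1 b2 d1 d2) (dn a1 a2 b1 b2 d1 d2 + 4) := rfl
    have e2 : Nat.beq (dnF a1 a2 b1 b2 d1 d2) (Nat.add (dpF a1 a2 b1 b2 d1 d2) 4) =
      Nat.beq (dn a1 a2 b1 b2 d1 d2) (dp a1 a2 b1 b2 d1 d2 + 4) := rfl
    rw [e1, e2] at h
    cases hc : (Nat.beq (dp a1 a2 b1 b2 d1 d2) (dn a1 a2 b1 b2 d1 d2 + 4) ||
      Nat.beq (dn a1 a2 b1 b2 d1 d2) (dp a1 a2 b1 b2 d1 d2 + 4)) with
    | false => simp
    | true =>
      rw [hc, cond_true] at h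
      cases hn : hasN L b1 b2 d1 d2 with
      | false => simp
      | true =>
        rw [w1_has L _ _ _ _ hn] at h
        exact absurd h (by simp)
  · exact w1_tri_ne L hac

theorem w1 (L : List ℕ) (m n : ℕ) : pairF L m n = true → pairOK L m n = true := by
  intro h
  unfold pairF at h
  unfold pairOK
  rw [Bool.or_eq_true, Bool.or_eq_true] at h
  rw [Bool.or_eq_true]
  right
  rcases h with h | h | h
  · have hc : crossN m n = false := by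
      unfold crossN
      rw [w1_opp h, Bool.false_and]
    rw [hc, w1_tri_ne L (w1_ac h), w1_tri_ne L (w1_ad h), w1_tri_ne L (w1_bc h),
      w1_tri_ne L (w1_bd h)]
    rfl
  · have hc : crossN m n = false := by
      unfold crossN
      rw [w1_opp h, Bool.and_false]
    rw [hc, w1_tri_ne L (fun e => w1_ac h ⟨e.1.symm, e.2.symm⟩),
      w1_tri_ne L (fun e => w1_bc h ⟨e.1.symm, e.2.symm⟩),
      w1_tri_ne L (fun e => w1_ad h ⟨e.1.symm, e.2.symm⟩),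
      w1_tri_ne L (fun e => w1_bd h ⟨e.1.symm, e.2.symm⟩)]
    rfl
  · rw [Bool.and_eq_true, Bool.and_eq_true, Bool.and_eq_true, Bool.and_eq_true] at h
    obtain ⟨⟨⟨⟨h0, h1⟩, h2⟩, h3⟩, h4⟩ := h
    rw [h0, w1_triF L h1, w1_triF L h2, w1_triF L h3, w1_triF L h4]
    rfl

end Pool.Agent.W982.TA
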